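import Pool.Agent.Q55.Moo.Bnd

/-!
# Semisimplicity from the Tate conjecture, and the Tate conjecture for all powers from one power
-/

open CategoryTheory AlgebraicGeometry

set_option linter.unusedSectionVars false

universe u v w

namespace Pool.Agent.Q55.Moo

open Module
open Pool.Agent.H914 Pool.Agent.H914.VarClass Pool.Agent.H914.VarClass.Obj
  Pool.Agent.H914.WeilCohomology Pool.Agent.H281R3.HT
open Pool.Agent.Y133.Half Pool.Agent.Q55 Pool.Agent.Q60.TD Pool.Agent.H447
  Pool.Agent.W536.RR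

variable {k : Type u} [Field k] {𝒱 : VarClass k} {ops : CycleOps 𝒱}
  {W : WeilCohomology.{u, 0} ops} {X Y Z : 𝒱.Obj} {Γ : Type w} [Group Γ]
  {G : GaloisAction W Γ}

/-- The arithmetic of the bound. -/
lemma arithN {b : ℕ} (hb : 0 < b) :
    (2 * b) ^ (2 * b) ^ 3 * (2 * ((2 * b) ^ (2 * b) ^ 3 + 1) ^ (b ^ 2)) ≤
      (2 * b) ^ (2 * b) ^ 5 := by
  set c := 2 * b with hc
  set E := c ^ 3 with hE
  have hc2 : 2 ≤ c := by omega
  have h1 : 1 ≤ c ^ E := Nat.one_le_pow _ _ (by omega)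
  have h2 : c ^ E + 1 ≤ c ^ (E + 1) := by
    rw [pow_succ]
    nlinarith
  calc c ^ E * (2 * (c ^ E + 1) ^ (b ^ 2))
      ≤ c ^ E * (c * (c ^ (E + 1)) ^ (b ^ 2)) :=
        Nat.mul_le_mul_left _ (Nat.mul_le_mul hc2 (Nat.pow_le_pow_left h2 _))
    _ = c ^ (E + (1 + (E + 1) * b ^ 2)) := by
        rw [← pow_mul, pow_add, pow_add, pow_one]
    _ ≤ c ^ c ^ 5 := by
        refine Nat.pow_le_pow_right (by omega) ?_
        have e1 : E = 8 * b ^ 3 := by rw [hE, hc]; ring
        have e2 : c ^ 5 = 32 * b ^ 5 := by rw [hc]; ring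
        rw [e1, e2]
        have h3 : b ^ 3 ≤ b ^ 5 := Nat.pow_le_pow_right hb (by norm_num)
        have h4 : b ^ 2 ≤ b ^ 5 := Nat.pow_le_pow_right hb (by norm_num)
        have h5 : 1 ≤ b ^ 5 := Nat.one_le_pow _ _ hb
        have h6 : (8 * b ^ 3 + 1) * b ^ 2 = 8 * b ^ 5 + b ^ 2 := by ring
        rw [h6]
        omega

lemma tate_le {m n : ℕ} (h : m ≤ n) (hn : TateConj G (pw X n)) : TateConj G (pw X m) := by
  obtain ⟨s, p, hsp⟩ := exists_retract (X := X) h
  exact tate_retract hsp hn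

/-- Homological and numerical equivalence agree on all powers if the Tate conjecture holds for
the square. -/
lemma homEqNum_all {D : X.Cycles} (hD : IsAmpleLike W X D) [Nontrivial (W.H X)]
    (hT : TateConj G (pw X 1)) (n : ℕ) : HomEqNum W (pw X n) := by
  have h1 := (hodge_case hD.1 hD.2.1 hD.2.2).out 0 1
  exact (h1.1 (lefschetzB_of_tateConj hD.1 hD.2.1 hT) n).1

lemma finrank_gr_le (W : WeilCohomology.{u, 0} ops) (Y : 𝒱.Obj) (i : ℕ) :
    finrank W.K (W.gr Y i) ≤ finrank W.K (W.H Y) := Submodule.finrank_le _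

/-- **Semisimplicity in degree `i`** from the Tate conjecture for one power, which depends on the
Betti number. -/
theorem semisimple_of_tate {D : X.Cycles} (hD : IsAmpleLike W X D) (n i : ℕ)
    (hdet : DetCyclotomic G (pw X n))
    (hT : TateConj G (power X ((n + 1) * bettiNumber W (pw X n) i))) :
    SemisimpleAt G (pw X n) i := by
  set b := bettiNumber W (pw X n) i with hb
  have hle : ∀ m, m + 1 ≤ b → (n + 1) * (m + 1) ≤ (n + 1) * b - 1 + 1 := by
    intro m hm
    have h1 : (n + 1) * (m + 1) ≤ (n + 1) * b := Nat.mul_le_mul_left _ hm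
    omega
  refine exists_compl' (b := b) le_rfl hdet (fun m _ hm => ?_) (fun m hm1 hm => ?_)
  · obtain ⟨s, p, hsp⟩ := exists_pw_pw (X := X) (hle m hm)
    exact tate_retract hsp hT
  · have hbpos : 0 < finrank W.K (W.H (pw X n)) := by
      have h1 := finrank_gr_le W (pw X n) i
      have h2 : finrank W.K (W.gr (pw X n) i) = b := rfl
      omega
    have : Nontrivial (W.H X) := by
      apply Module.nontrivial_of_finrank_pos (R := W.K)
      rw [finrank_pw] at hbpos
      exact Nat.pos_of_ne_zero fun h0 => by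
        rw [h0, zero_pow (Nat.succ_ne_zero n)] at hbpos
        exact lt_irrefl _ hbpos
    obtain ⟨s, p, hsp⟩ := exists_pw_pw (X := X) (hle m hm)
    refine homEqNum_retract hsp (homEqNum_all hD (tate_le ?_ hT) _)
    have h1 : (n + 1) * 2 ≤ (n + 1) * b := Nat.mul_le_mul_left _ (by omega)
    omega

/-- **The main theorem.** The Tate conjecture for one power of `X`, which depends only on the sum
of the Betti numbers, implies the Tate conjecture and the semisimplicity for all powers. -/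
theorem main [TopologicalSpace Γ] [TopologicalSpace W.K] (hA : IsArithmetic G X)
    {D : X.Cycles} (hD : IsAmpleLike W X D) (hO : OverBase G X)
    (hdet : ∀ n, DetCyclotomic G (pw X n)) {N : ℕ}
    (hN : (2 * finrank W.K (W.H X)) ^ (2 * finrank W.K (W.H X)) ^ 5 ≤ N + 1)
    (hT : TateConj G (pw X N)) (n : ℕ) :
    (∀ i, SemisimpleAt G (pw X n) i) ∧ TateConj G (pw X n) ∧ HomEqNum W (pw X n) := by
  classical
  by_cases hX : Nontrivial (W.H X)
  swap
  · have h0 : finrank W.K (W.H X) = 0 := by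
      by_contra h2
      exact hX (Module.nontrivial_of_finrank_pos (R := W.K) (Nat.pos_of_ne_zero h2))
    obtain ⟨h1, h2⟩ := strong_zero (G := G) h0 n
    refine ⟨h1, h2, ?_⟩
    have h3 : finrank W.K (W.H (pw X n)) = 0 := by
      rw [finrank_pw, h0, zero_pow (Nat.succ_ne_zero n)]
    have h4 : Subsingleton (W.H (pw X n)) := Module.finrank_zero_iff.1 h3
    rw [homEqNum_iff, eq_bot_iff]
    intro x _
    rw [Submodule.mem_bot]
    exact Subsingleton.elim _ _
  set b := finrank W.K (W.H X) with hb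
  have hbpos : 0 < b := Module.finrank_pos
  have har := arithN hbpos
  set N₀ := (2 * b) ^ (2 * b) ^ 3 with hN₀
  have hN₀pos : 2 ≤ N₀ := by
    calc 2 ≤ 2 * b := by omega
      _ = (2 * b) ^ 1 := (pow_one _).symm
      _ ≤ (2 * b) ^ (2 * b) ^ 3 := Nat.pow_le_pow_right (by omega) (Nat.one_le_pow _ _ (by omega))
  have hNN : N₀ * (2 * (N₀ + 1) ^ (b ^ 2)) ≤ N + 1 := har.trans hN
  have h1N : 1 ≤ (N₀ + 1) ^ (b ^ 2) := Nat.one_le_pow _ _ (by omega)
  have hN₀N : N₀ ≤ N + 1 := by nlinarith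
  have hnum : ∀ m, HomEqNum W (pw X m) := homEqNum_all hD (tate_le (by omega) hT)
  obtain ⟨n₀, hn₀⟩ : ∃ n₀, n₀ + 1 = N₀ := ⟨N₀ - 1, by omega⟩
  have hss : ∀ j, SemisimpleAt G (pw X n₀) (2 * j) := by
    intro j
    rw [ssAt_iff]
    refine ss_of_simple ?_ (gr_stab G (pw X n₀) (2 * j))
    intro V hVi hV
    have hVs := (stable_iff G).2 hV.2.1
    have hfr := finrank_simple_le hO hV
    have hpos : 0 < finrank W.K V := by
      rw [Nat.pos_iff_ne_zero, Ne, Submodule.finrank_eq_zero]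
      exact hV.1
    obtain ⟨m, hm⟩ : ∃ m, m + 1 = finrank W.K V + finrank W.K V :=
      ⟨finrank W.K V + finrank W.K V - 1, by omega⟩
    have hmN : (n₀ + 1) * (m + 1) ≤ N + 1 := by
      refine le_trans ?_ hNN
      rw [hn₀]
      refine Nat.mul_le_mul_left _ ?_
      have h2 : finrank W.K V ≤ (N₀ + 1) ^ (b ^ 2) := by
        rw [← hn₀]
        exact hfr
      omega
    obtain ⟨s, p, hsp⟩ := exists_pw_pw (X := X) hmN
    obtain ⟨C, h1, h2, h3, h4⟩ := exists_compl hVi hVs (hdet n₀ (2 * j) V hVi hVs) hm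
      (tate_retract hsp hT) (homEqNum_retract hsp (hnum N))
    exact ⟨C, h1, (stable_iff G).1 h2, h3, h4⟩
  obtain ⟨h1, h2⟩ := strong_main hA hD.1 hD.2.1 hD.2.2 (N := n₀) (by rw [hn₀])
    ⟨hss, tate_le (by omega) hT⟩ n
  exact ⟨h1, h2, hnum n⟩

/-- The main theorem for the varieties which are retracts of powers. -/
theorem main_retract [TopologicalSpace Γ] [TopologicalSpace W.K] (hA : IsArithmetic G X)
    {D : X.Cycles} (hD : IsAmpleLike W X D) (hO : OverBase G X)
    (hdet : ∀ n, DetCyclotomic G (pw X n)) {N : ℕ}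
    (hN : (2 * finrank W.K (W.H X)) ^ (2 * finrank W.K (W.H X)) ^ 5 ≤ N + 1)
    (hT : TateConj G (pw X N)) {n : ℕ} {s : Y ⟶ pw X n} {p : pw X n ⟶ Y} (h : s ≫ p = 𝟙 Y) :
    (∀ i, SemisimpleAt G Y i) ∧ TateConj G Y ∧ HomEqNum W Y := by
  obtain ⟨h1, h2, h3⟩ := main hA hD hO hdet hN hT n
  exact ⟨fun i => (ssAt_iff G).2 (ss_retract G h ((ssAt_iff G).1 (h1 i))), tate_retract h h2,
    homEqNum_retract h h3⟩

end Pool.Agent.Q55.Moo
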