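import Pool.Agent.Q60.TD.Rep2

/-!
# Complements of stable subspaces: linear algebra
-/

namespace Pool.Agent.Q55.Moo

open Module Pool.Agent.Q60.TD

section Simple

variable {K V : Type*} [Field K] [AddCommGroup V] [Module K V] {N : Set (Module.End K V)}
  {U W C : Submodule K V}

/-- The subspace `U` is semisimple if its simple subspaces have stable complements. -/
theorem ss_of_simple [FiniteDimensional K V]
    (h : ∀ X ≤ U, Smp N X → ∃ C ≤ U, Stab N C ∧ X ⊓ C = ⊥ ∧ X ⊔ C = U)
    (hU : Stab N U) : SSon N U := by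
  have key : ∀ d : ℕ, ∀ W ≤ U, Stab N W → finrank K W = d →
      ∃ C ≤ U, Stab N C ∧ W ⊓ C = ⊥ ∧ W ⊔ C = U := by
    intro d
    induction d using Nat.strong_induction_on with
    | _ d ih =>
      intro W hW hWs hd
      by_cases h0 : W = ⊥
      · exact ⟨U, le_rfl, hU, by rw [h0, bot_inf_eq], by rw [h0, bot_sup_eq]⟩
      obtain ⟨X, hXW, hX⟩ := exists_smp hWs h0
      obtain ⟨C₀, hC₀, hCs₀, h1, h2⟩ := h X (hXW.trans hW) hX
      have hlt : W ⊓ C₀ < W := by
        refine lt_of_le_of_ne inf_le_left fun he => hX.1 ?_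
        rw [eq_bot_iff, ← h1]
        refine le_inf le_rfl ?_
        calc X ≤ W := hXW
          _ = W ⊓ C₀ := he.symm
          _ ≤ C₀ := inf_le_right
      have hfl : finrank K ↥(W ⊓ C₀) < d := by
        rw [← hd]
        exact Submodule.finrank_lt_finrank_of_lt hlt
      obtain ⟨D, hD, hDs, h3, h4⟩ := ih _ hfl
        (W ⊓ C₀) (inf_le_left.trans hW) (hWs.inf hCs₀) rfl
      refine ⟨C₀ ⊓ D, inf_le_left.trans hC₀, hCs₀.inf hDs, ?_, ?_⟩
      · rw [← inf_assoc]
        exact h3
      · apply le_antisymm (sup_le hW (inf_le_left.trans hC₀))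
        have h5 : C₀ = (W ⊓ C₀) ⊔ (C₀ ⊓ D) := by
          have h6 : ((W ⊓ C₀) ⊔ D) ⊓ C₀ = (W ⊓ C₀) ⊔ (D ⊓ C₀) :=
            sup_inf_assoc_of_le D (inf_le_right : W ⊓ C₀ ≤ C₀)
          rw [h4, inf_eq_right.2 hC₀, inf_comm D C₀] at h6
          exact h6
        have h7 : C₀ ≤ W ⊔ C₀ ⊓ D := h5.le.trans
          (sup_le ((inf_le_left : W ⊓ C₀ ≤ W).trans le_sup_left) le_sup_right)
        rw [← h2]
        exact sup_le (hXW.trans le_sup_left) h7
  intro W hW hWs
  exact key _ W hW hWs rfl

end Simple

section Avg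

variable {K V : Type*} [Field K] [AddCommGroup V] [Module K V] {G : Type*} [Group G]
  {ρ : G →* Module.End K V} {U W C : Submodule K V}

/-- A stable subspace with a complement which is stable under a subgroup of finite index has a
stable complement. -/
theorem maschke_one [CharZero K] (Δ : Subgroup G) [Δ.FiniteIndex] (hU : Stab (Op ρ ⊤) U)
    (hW : W ≤ U) (hWs : Stab (Op ρ ⊤) W) (hCs : Stab (Op ρ Δ) C)
    (h1 : W ⊓ C = ⊥) (h2 : W ⊔ C = U) :
    ∃ C' ≤ U, Stab (Op ρ ⊤) C' ∧ W ⊓ C' = ⊥ ∧ W ⊔ C' = U := by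
  classical
  obtain ⟨p, hp1, hp0, hp2'⟩ := exists_pr h1
  have hp2 : ∀ u ∈ U, p u ∈ W := fun u _ => hp2' u
  have hp3 : ∀ f ∈ Op ρ Δ, ∀ u ∈ U, p (f u) = f (p u) := by
    intro f hf u hu
    rw [← h2] at hu
    obtain ⟨w, hw, c, hc, rfl⟩ := Submodule.mem_sup.1 hu
    rw [map_add, map_add, hp1 _ ((hWs.mono (op_mono le_top)) f hf w hw), hp0 _ (hCs f hf c hc),
      map_add, hp1 w hw, hp0 c hc, add_zero, add_zero]
  have hfin : Fintype (G ⧸ Δ) := Fintype.ofFinite _
  have hm : (Fintype.card (G ⧸ Δ) : K) ≠ 0 := Nat.cast_ne_zero.2 Fintype.card_ne_zero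
  have hinv : ∀ g : G, ∀ v, ρ g (ρ g⁻¹ v) = v := fun g v => by
    have h1 : (ρ g * ρ g⁻¹) v = v := by rw [← map_mul, mul_inv_cancel, map_one]; rfl
    exact h1
  have hmul : ∀ g g' : G, ∀ v, ρ (g * g') v = ρ g (ρ g' v) := fun g g' v => by
    rw [map_mul]; rfl
  let T : G ⧸ Δ → V →ₗ[K] V := fun q => ρ q.out ∘ₗ p ∘ₗ ρ q.out⁻¹
  have hT : ∀ q v, T q v = ρ q.out (p (ρ q.out⁻¹ v)) := fun q v => rfl
  have hUg : ∀ g : G, ∀ u ∈ U, ρ g u ∈ U := fun g u hu => hU _ (mem_Op (Subgroup.mem_top g)) u hu
  have hWg : ∀ g : G, ∀ u ∈ W, ρ g u ∈ W := fun g u hu => hWs _ (mem_Op (Subgroup.mem_top g)) u hu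
  have key : ∀ (g : G) (q : G ⧸ Δ) (u : V), u ∈ U → T (g • q) (ρ g u) = ρ g (T q u) := by
    intro g q u hu
    obtain ⟨δ, hδ, hout⟩ : ∃ δ ∈ Δ, (g • q).out = g * q.out * δ := by
      refine ⟨(g * q.out)⁻¹ * (g • q).out, ?_, by group⟩
      rw [← QuotientGroup.eq, ← smul_eq_mul, ← MulAction.Quotient.smul_mk,
        QuotientGroup.out_eq', QuotientGroup.out_eq']
    rw [hT, hT, hout]
    have h1 : (g * q.out * δ)⁻¹ = δ⁻¹ * (q.out⁻¹ * g⁻¹) := by group
    rw [h1, hmul δ⁻¹, hmul q.out⁻¹, hmul (g * q.out) δ, hmul g q.out]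
    have h2 : ρ g⁻¹ (ρ g u) = u := by
      have := hinv g⁻¹ u
      rwa [inv_inv] at this
    rw [h2]
    have h3 := hp3 (ρ δ⁻¹) (mem_Op (Δ.inv_mem hδ)) (ρ q.out⁻¹ u) (hUg _ _ hu)
    rw [h3, hinv]
  set P : V →ₗ[K] V := (Fintype.card (G ⧸ Δ) : K)⁻¹ • ∑ q, T q with hP
  have hP1 : ∀ w ∈ W, P w = w := by
    intro w hw
    rw [hP, LinearMap.smul_apply, LinearMap.sum_apply]
    have h1 : ∀ q, T q w = w := fun q => by
      rw [hT, hp1 _ (hWg _ w hw), hinv]
    simp only [h1, Finset.sum_const, Finset.card_univ]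
    rw [← Nat.cast_smul_eq_nsmul K, smul_smul, inv_mul_cancel₀ hm, one_smul]
  have hP2 : ∀ u ∈ U, P u ∈ W := by
    intro u hu
    rw [hP, LinearMap.smul_apply, LinearMap.sum_apply]
    exact Submodule.smul_mem _ _ (Submodule.sum_mem _ fun q _ => hWg _ _ (hp2 _ (hUg _ _ hu)))
  have hP3 : ∀ f ∈ Op ρ ⊤, ∀ u ∈ U, P (f u) = f (P u) := by
    rintro _ ⟨g, -, rfl⟩ u hu
    rw [hP, LinearMap.smul_apply, LinearMap.smul_apply, LinearMap.sum_apply, LinearMap.sum_apply,
      map_smul, map_sum]
    congr 1
    rw [← Equiv.sum_comp (MulAction.toPerm g)]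
    exact Finset.sum_congr rfl fun q _ => key g q u hu
  refine ⟨U ⊓ LinearMap.ker P, inf_le_left, ?_, ?_, ?_⟩
  · rintro f hf w ⟨hw, hw'⟩
    refine ⟨hU f hf w hw, ?_⟩
    have h1 : P w = 0 := hw'
    change P (f w) = 0
    rw [hP3 f hf w hw, h1, map_zero]
  · rw [eq_bot_iff]
    rintro x ⟨hx, -, hx'⟩
    rw [Submodule.mem_bot]
    have h1 : P x = 0 := hx'
    rwa [hP1 x hx] at h1
  · apply le_antisymm (sup_le hW inf_le_left)
    intro u hu
    refine Submodule.mem_sup.2 ⟨P u, hP2 u hu, u - P u, ⟨?_, ?_⟩, by abel⟩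
    · exact Submodule.sub_mem _ hu (hW (hP2 u hu))
    · change P (u - P u) = 0
      rw [map_sub, hP1 _ (hP2 u hu), sub_self]

end Avg

section Alt

variable {K V M : Type*} [Field K] [AddCommGroup V] [Module K V] [AddCommGroup M] [Module K M]
  {r : ℕ}

/-- The values of an alternating map on a basis of a stable subspace: action of an operator. -/
lemma alt_det (A : V [⋀^Fin r]→ₗ[K] M) {S : Submodule K V} (w : Basis (Fin r) K S)
    {g : V →ₗ[K] V} (hg : ∀ x ∈ S, g x ∈ S) :
    A (fun k => g (w k)) = LinearMap.det (g.restrict hg) • A fun k => (w k : V) := by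
  apply eq_of_sub_eq_zero
  apply (Module.forall_dual_apply_eq_zero_iff K _).1
  intro l
  rw [map_sub, sub_eq_zero, map_smul, smul_eq_mul]
  set B : S [⋀^Fin r]→ₗ[K] K := (l.compAlternatingMap A).compLinearMap S.subtype with hB
  have h1 : B = B w • w.det := AlternatingMap.eq_smul_basis_det w B
  have h2 : l (A fun k => g (w k)) = B ((g.restrict hg) ∘ w) := rfl
  have h3 : l (A fun k => (w k : V)) = B w := rfl
  rw [h2, h3]
  conv_lhs => rw [h1]
  rw [AlternatingMap.smul_apply, Basis.det_comp, Basis.det_self, mul_one, smul_eq_mul, mul_comm]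

variable {lam : V [⋀^Fin r]→ₗ[K] K} {S U : Submodule K V}

/-- The vectors of `U` on which the form vanishes together with any `r - 1` vectors of `S`. -/
def cpl (lam : V [⋀^Fin r]→ₗ[K] K) (S U : Submodule K V) : Submodule K V where
  carrier := {x | x ∈ U ∧ ∀ v : Fin r → V, (∀ k, v k ∈ S) → ∀ j, lam (Function.update v j x) = 0}
  add_mem' := by
    rintro a b ⟨ha, ha'⟩ ⟨hb, hb'⟩
    refine ⟨U.add_mem ha hb, fun v hv j => ?_⟩
    rw [AlternatingMap.map_update_add, ha' v hv j, hb' v hv j, add_zero]
  zero_mem' := ⟨U.zero_mem, fun v _ j => AlternatingMap.map_update_zero _ _ _⟩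
  smul_mem' := by
    rintro c a ⟨ha, ha'⟩
    refine ⟨U.smul_mem c ha, fun v hv j => ?_⟩
    rw [AlternatingMap.map_update_smul, ha' v hv j, smul_zero]

lemma mem_cpl {x : V} : x ∈ cpl lam S U ↔
    x ∈ U ∧ ∀ v : Fin r → V, (∀ k, v k ∈ S) → ∀ j, lam (Function.update v j x) = 0 := Iff.rfl

lemma cpl_le : cpl lam S U ≤ U := fun _ hx => hx.1

/-- The value on the basis with one vector replaced by a vector of `S`. -/
lemma update_basis (w : Basis (Fin r) K S) (m k : Fin r) :
    lam (Function.update (fun k => (w k : V)) m (w k)) = if k = m then lam fun k => (w k : V) else 0 := by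
  by_cases h : k = m
  · rw [if_pos h, h]
    congr 1
    exact Function.update_eq_self m _
  · rw [if_neg h]
    refine lam.map_eq_zero_of_eq _ (i := m) (j := k) ?_ (Ne.symm h)
    rw [Function.update_self, Function.update_of_ne h]

lemma update_mem (w : Basis (Fin r) K S) (m : Fin r) (x : S) :
    lam (Function.update (fun k => (w k : V)) m x) = w.repr x m * lam fun k => (w k : V) := by
  have h1 : (x : V) = ∑ k, w.repr x k • (w k : V) := by
    conv_lhs => rw [← w.sum_repr x]
    rw [Submodule.coe_sum]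
    exact Finset.sum_congr rfl fun k _ => rfl
  rw [h1, AlternatingMap.map_update_sum]
  simp only [AlternatingMap.map_update_smul, update_basis, smul_eq_mul, mul_ite, mul_zero]
  rw [Finset.sum_ite_eq' Finset.univ m, if_pos (Finset.mem_univ m)]

lemma inf_cpl (w : Basis (Fin r) K S) (h : (lam fun k => (w k : V)) ≠ 0) :
    S ⊓ cpl lam S U = ⊥ := by
  rw [eq_bot_iff]
  rintro x ⟨hx, -, hx'⟩
  have h1 : ∀ m, w.repr ⟨x, hx⟩ m = 0 := fun m => by
    have h2 := hx' (fun k => w k) (fun k => (w k).2) m
    have h3 := update_mem (lam := lam) w m ⟨x, hx⟩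
    change lam (Function.update (fun k => (w k : V)) m x) = _ at h3
    rw [h2] at h3
    exact (mul_eq_zero.1 h3.symm).resolve_right h
  have h2 : w.repr ⟨x, hx⟩ = 0 := Finsupp.ext h1
  have h3 : (⟨x, hx⟩ : S) = 0 := (LinearEquiv.map_eq_zero_iff _).1 h2
  exact congrArg Subtype.val h3

/-- The expansion: it is enough to know the values on the basis with one vector replaced. -/
lemma alt_expand (w : Basis (Fin r) K S) {z : V}
    (hz : ∀ m, lam (Function.update (fun k => (w k : V)) m z) = 0) (v : Fin r → V)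
    (hv : ∀ k, v k ∈ S) (j : Fin r) : lam (Function.update v j z) = 0 := by
  classical
  -- the values on words in the basis
  have hword : ∀ f : Fin r → Fin r, lam (Function.update (fun k => (w (f k) : V)) j z) = 0 := by
    intro f
    by_cases hf : ∃ k k', k ≠ k' ∧ k ≠ j ∧ k' ≠ j ∧ f k = f k'
    · obtain ⟨k, k', h1, h2, h3, h4⟩ := hf
      refine lam.map_eq_zero_of_eq _ (i := k) (j := k') ?_ h1
      rw [Function.update_of_ne h2, Function.update_of_ne h3, h4]
    push Not at hf
    obtain ⟨m, hm⟩ : ∃ m, m ∉ (Finset.univ.erase j).image f := by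
      by_contra hcon
      push Not at hcon
      have h1 : (Finset.univ : Finset (Fin r)) ⊆ (Finset.univ.erase j).image f := fun m _ => hcon m
      have h2 := Finset.card_le_card h1
      have h3 := Finset.card_image_le (s := Finset.univ.erase j) (f := f)
      rw [Finset.card_erase_of_mem (Finset.mem_univ j), Finset.card_univ, Fintype.card_fin] at h3
      rw [Finset.card_univ, Fintype.card_fin] at h2
      have := j.2
      omega
    have hmk : ∀ k, k ≠ j → f k ≠ m := fun k hk h =>
      hm (Finset.mem_image.2 ⟨k, Finset.mem_erase.2 ⟨hk, Finset.mem_univ k⟩, h⟩)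
    have hinj : Function.Injective (Function.update f j m) := by
      intro a b hab
      by_cases ha : a = j
      · by_cases hb : b = j
        · rw [ha, hb]
        · rw [ha, Function.update_self, Function.update_of_ne hb] at hab
          exact absurd hab.symm (hmk b hb)
      · by_cases hb : b = j
        · rw [hb, Function.update_self, Function.update_of_ne ha] at hab
          exact absurd hab (hmk a ha)
        · rw [Function.update_of_ne ha, Function.update_of_ne hb] at hab
          by_contra hne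
          exact hf a b hne ha hb hab
    let σ : Equiv.Perm (Fin r) := Equiv.ofBijective _ (Finite.injective_iff_bijective.1 hinj)
    have h1 : Function.update (fun k => (w (f k) : V)) j z =
        (Function.update (fun k => (w k : V)) m z) ∘ σ := by
      funext k
      by_cases hk : k = j
      · subst hk
        rw [Function.update_self, Function.comp_apply]
        have : σ k = m := Function.update_self _ _ _
        rw [this, Function.update_self]
      · rw [Function.update_of_ne hk, Function.comp_apply]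
        have : σ k = f k := Function.update_of_ne hk _ _
        rw [this, Function.update_of_ne (hmk k hk)]
    rw [h1, AlternatingMap.map_perm, hz m, smul_zero]
  -- a multilinear map on `S`
  let L : Fin r → (S →ₗ[K] V) := fun k =>
    if k = j then (w.coord j).smulRight z else S.subtype
  have hL : ∀ u : Fin r → S, (fun k => L k (u k)) =
      Function.update (fun k => (u k : V)) j (w.coord j (u j) • z) := by
    intro u
    funext k
    by_cases hk : k = j
    · subst hk
      simp only [L, if_pos rfl, Function.update_self]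
      rfl
    · simp only [L, if_neg hk, Function.update_of_ne hk]
      rfl
  have h0 : (lam.toMultilinearMap.compLinearMap L) = 0 := by
    apply Basis.ext_multilinear (fun _ => w)
    intro f
    rw [MultilinearMap.compLinearMap_apply, zero_apply]
    change lam (fun k => L k (w (f k))) = 0
    rw [hL, AlternatingMap.map_update_smul, hword f, smul_zero]
  have h1 := congrArg (fun F => F (Function.update (fun k => (⟨v k, hv k⟩ : S)) j (w j))) h0
  rw [MultilinearMap.compLinearMap_apply, zero_apply] at h1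
  change lam (fun k => L k (Function.update (fun k => (⟨v k, hv k⟩ : S)) j (w j) k)) = 0 at h1
  rw [hL, Function.update_self] at h1
  have h2 : w.coord j (w j) = 1 := by
    rw [Basis.coord_apply, Basis.repr_self, Finsupp.single_eq_same]
  rw [h2, one_smul] at h1
  have h3 : Function.update (fun k => ((Function.update (fun k => (⟨v k, hv k⟩ : S)) j (w j) k : S) : V))
      j z = Function.update v j z := by
    funext k
    by_cases hk : k = j
    · subst hk
      rw [Function.update_self, Function.update_self]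
    · rw [Function.update_of_ne hk, Function.update_of_ne hk, Function.update_of_ne hk]
  rwa [h3] at h1

lemma sup_cpl (hSU : S ≤ U) (w : Basis (Fin r) K S) (h : (lam fun k => (w k : V)) ≠ 0) :
    S ⊔ cpl lam S U = U := by
  apply le_antisymm (sup_le hSU cpl_le)
  intro x hx
  set c : K := lam fun k => (w k : V) with hc
  set y : S := ∑ k, (lam (Function.update (fun k => (w k : V)) k x) / c) • w k with hy
  refine Submodule.mem_sup.2 ⟨y, y.2, x - y, ⟨U.sub_mem hx (hSU y.2), ?_⟩, by abel⟩
  apply alt_expand w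
  intro m
  rw [sub_eq_add_neg, ← neg_one_smul K, AlternatingMap.map_update_add,
    AlternatingMap.map_update_smul, update_mem w m y]
  have h1 : w.repr y m = lam (Function.update (fun k => (w k : V)) m x) / c := by
    rw [hy, map_sum, Finsupp.finsetSum_apply]
    simp only [map_smul, Basis.repr_self, Finsupp.smul_apply, smul_eq_mul, Finsupp.single_apply,
      mul_ite, mul_one, mul_zero]
    rw [Finset.sum_ite_eq' Finset.univ m, if_pos (Finset.mem_univ m)]
  rw [h1, ← hc, div_mul_cancel₀ _ h, smul_eq_mul]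
  ring

/-- The complement is stable under an operator which multiplies the form by a scalar. -/
lemma cpl_stable [FiniteDimensional K V] {g : V →ₗ[K] V} (hg : Function.Injective g)
    (hS : ∀ x ∈ S, g x ∈ S) (hU : ∀ x ∈ U, g x ∈ U) {μ : K}
    (hlam : ∀ v : Fin r → V, lam (fun k => g (v k)) = μ * lam v) {x : V}
    (hx : x ∈ cpl lam S U) : g x ∈ cpl lam S U := by
  refine ⟨hU x hx.1, fun v hv j => ?_⟩
  have hsurj : Function.Surjective (g.restrict hS) := by
    apply (LinearMap.injective_iff_surjective (K := K)).1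
    intro a b hab
    apply Subtype.ext
    apply hg
    exact congrArg Subtype.val hab
  choose u hu using fun k => hsurj ⟨v k, hv k⟩
  have h1 : Function.update v j (g x) = fun k => g (Function.update (fun k => (u k : V)) j x k) := by
    funext k
    by_cases hk : k = j
    · subst hk
      rw [Function.update_self, Function.update_self]
    · rw [Function.update_of_ne hk, Function.update_of_ne hk]
      exact (congrArg Subtype.val (hu k)).symm
  rw [h1, hlam, hx.2 _ (fun k => (u k).2) j, mul_zero]

end Alt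

end Pool.Agent.Q55.Moo
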