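import Pool.Agent.Q55.Moo.Dual

/-!
# Powers of powers, and the dimensions of the simple subspaces
-/

open CategoryTheory AlgebraicGeometry

set_option linter.unusedSectionVars false

universe u v w

namespace Pool.Agent.Q55.Moo

open Module
open Pool.Agent.H914 Pool.Agent.H914.VarClass Pool.Agent.H914.VarClass.Obj
  Pool.Agent.H914.WeilCohomology Pool.Agent.H281R3.HT
open Pool.Agent.Y133.Half Pool.Agent.Q55 Pool.Agent.Q60.TD Pool.Agent.H447
  Pool.Agent.W536.RR Pool.Agent.Q60.ED
open Pool.Agent.Q60.HD (wd)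

variable {k : Type u} [Field k] {𝒱 : VarClass k} {ops : CycleOps 𝒱}
  {W : WeilCohomology.{u, 0} ops} {X Y Z : 𝒱.Obj} {Γ : Type w} [Group Γ]
  {G : GaloisAction W Γ}

/-- A power of a power of `X` is a retract of a power of `X`. -/
lemma exists_pw_pw {n m N : ℕ} (h : (n + 1) * (m + 1) ≤ N + 1) :
    ∃ (s : pw (pw X n) m ⟶ pw X N) (p : pw X N ⟶ pw (pw X n) m), s ≫ p = 𝟙 _ := by
  have hlt : ∀ (j : Fin (m + 1)) (i : Fin (n + 1)), (n + 1) * j + i < N + 1 := by
    intro j i
    have h1 : (n + 1) * j + i < (n + 1) * (j + 1) := by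
      rw [mul_add, mul_one]
      exact Nat.add_lt_add_left i.2 _
    have h2 : (n + 1) * ((j : ℕ) + 1) ≤ (n + 1) * (m + 1) := Nat.mul_le_mul_left _ j.2
    omega
  let p : pw X N ⟶ pw (pw X n) m :=
    liftN (pw X n) m fun j => liftN X n fun i => prj X N ⟨(n + 1) * j + i, hlt j i⟩
  have hp : ∀ (j : Fin (m + 1)) (i : Fin (n + 1)), p ≫ prj (pw X n) m j ≫ prj X n i =
      prj X N ⟨(n + 1) * j + i, hlt j i⟩ := by
    intro j i
    rw [← Category.assoc, liftN_prj, liftN_prj]
  refine ⟨liftN X N fun l => prj (pw X n) m ⟨min (l / (n + 1)) m, by omega⟩ ≫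
    prj X n ⟨l % (n + 1), Nat.mod_lt _ (by omega)⟩, p, ?_⟩
  apply hom_ext_prj
  intro j
  apply hom_ext_prj
  intro i
  rw [Category.id_comp, Category.assoc, Category.assoc, hp, liftN_prj]
  have e1 : ((n + 1) * (j : ℕ) + i) / (n + 1) = j := by
    rw [Nat.mul_add_div (by omega), Nat.div_eq_of_lt i.2, add_zero]
  have e2 : ((n + 1) * (j : ℕ) + i) % (n + 1) = i := by
    rw [Nat.mul_add_mod, Nat.mod_eq_of_lt i.2]
  have e3 : (⟨min (((n + 1) * (j : ℕ) + i) / (n + 1)) m, by omega⟩ : Fin (m + 1)) = j := by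
    ext
    change min (((n + 1) * (j : ℕ) + i) / (n + 1)) m = j
    rw [e1]
    have := j.2
    omega
  have e4 : (⟨((n + 1) * (j : ℕ) + i) % (n + 1), Nat.mod_lt _ (by omega)⟩ : Fin (n + 1)) = i := by
    ext
    exact e2
  change prj (pw X n) m ⟨min (((n + 1) * (j : ℕ) + i) / (n + 1)) m, _⟩ ≫
    prj X n ⟨((n + 1) * (j : ℕ) + i) % (n + 1), _⟩ = _
  rw [e3, e4]

/-- The whole group commutes with the projections. -/
lemma act_prj (hO : OverBase G X) (n : ℕ) (i : Fin (n + 1)) (g : Γ) :
    (G.ρ (pw X n)).Commutes (G.ρ X) (W.map (prj X n i)) g := by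
  induction n with
  | zero =>
    intro _ _ b
    rw [prj_zero]
    change W.map (𝟙 X) ((G.ρ X).act g b) = (G.ρ X).act g (W.map (𝟙 X) b)
    rw [W.map_id, W.map_id]
  | succ n ih =>
    intro h1 h2 b
    have hn : g ∈ (G.ρ (pw X n)).dom := by
      rw [(hO n).1]
      exact Subgroup.mem_top g
    refine Fin.lastCases ?_ (fun j => ?_) i
    · rw [prj_last]
      exact ((hO n).2 g).2 h1 h2 b
    · rw [prj_castSucc, W.map_comp, W.map_comp, ih j hn h2 b]
      exact ((hO n).2 g).1 h1 hn _

section bound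

variable {ι : Type} [Fintype ι] [DecidableEq ι]

/-- The number of occurrences of each pair of letters in a pair of words. -/
def mlt {n : ℕ} (I J : Fin n → ι) (a : ι × ι) : Fin (n + 1) :=
  ⟨(Finset.univ.filter fun k => (I k, J k) = a).card, by
    have := Finset.card_filter_le (Finset.univ : Finset (Fin n)) fun k => (I k, J k) = a
    rw [Finset.card_univ, Fintype.card_fin] at this
    omega⟩

lemma prod_mlt {K : Type} [Field K] {n : ℕ} (A : Matrix ι ι K) (I J : Fin n → ι) :
    ∏ k, A (I k) (J k) = ∏ a : ι × ι, A a.1 a.2 ^ (mlt I J a : ℕ) := by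
  rw [← Finset.prod_fiberwise_of_maps_to (s := Finset.univ) (t := Finset.univ)
    (g := fun k => (I k, J k)) (fun _ _ => Finset.mem_univ _)]
  refine Finset.prod_congr rfl fun a _ => ?_
  rw [Finset.prod_congr rfl (g := fun _ => A a.1 a.2), Finset.prod_const]
  · rfl
  · intro k hk
    rw [← (Finset.mem_filter.1 hk).2]

/-- The space of the tensor powers of matrices, applied to a tensor. -/
noncomputable def Psi {K : Type} [Field K] {n : ℕ} (t : (Fin n → ι) → K) :
    ((ι × ι → Fin (n + 1)) → K) →ₗ[K] ((Fin n → ι) → K) :=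
  LinearMap.pi fun I => ∑ J, t J • LinearMap.proj (mlt I J)

lemma tpow_mem {K : Type} [Field K] {n : ℕ} (A : Matrix ι ι K) (t : (Fin n → ι) → K) :
    tpow A n t ∈ LinearMap.range (Psi t) := by
  refine ⟨fun m => ∏ a : ι × ι, A a.1 a.2 ^ (m a : ℕ), ?_⟩
  funext I
  rw [Psi, LinearMap.pi_apply, LinearMap.sum_apply, tpow_apply]
  refine Finset.sum_congr rfl fun J _ => ?_
  rw [LinearMap.smul_apply, LinearMap.proj_apply, smul_eq_mul, prod_mlt, mul_comm]

end bound

/-- The dimensions of the simple subspaces of the cohomology of a power. -/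
lemma finrank_simple_le (hO : OverBase G X) {n : ℕ} {V : Submodule W.K (W.H (pw X n))}
    (hV : Smp (Op (rep G (pw X n)) ⊤) V) :
    finrank W.K V ≤ (n + 2) ^ (finrank W.K (W.H X) ^ 2) := by
  classical
  obtain ⟨u, hu, hu0⟩ := Submodule.exists_mem_ne_zero_of_ne_bot hV.1
  let e := Module.finBasis W.K (W.H X)
  set t := tn e n u with ht
  have hut : clsK e (prj X n) t = u := clsK_tn e n u
  set S : Submodule W.K (W.H (pw X n)) :=
    Submodule.span W.K (Set.range fun g => rep G (pw X n) g u) with hS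
  have hSV : S ≤ V := by
    rw [hS, Submodule.span_le]
    rintro _ ⟨g, rfl⟩
    exact stab_op.1 hV.2.1 g (Subgroup.mem_top g) u hu
  have hSs : Stab (Op (rep G (pw X n)) ⊤) S := by
    rw [stab_op]
    intro g _ x hx
    induction hx using Submodule.span_induction with
    | mem x hx =>
      obtain ⟨g', rfl⟩ := hx
      refine Submodule.subset_span ⟨g * g', ?_⟩
      change rep G (pw X n) (g * g') u = rep G (pw X n) g (rep G (pw X n) g' u)
      rw [map_mul]
      rfl
    | zero => rw [map_zero]; exact Submodule.zero_mem _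
    | add x y _ _ hx hy => rw [map_add]; exact Submodule.add_mem _ hx hy
    | smul c x _ hx => rw [map_smul]; exact Submodule.smul_mem _ _ hx
  have hS0 : S ≠ ⊥ := by
    intro h0
    apply hu0
    have h1 : u ∈ S := Submodule.subset_span ⟨1, by
      change rep G (pw X n) 1 u = u
      rw [map_one]
      rfl⟩
    rw [h0, Submodule.mem_bot] at h1
    exact h1
  have hSeq : S = V := hV.2.2 S hSV hSs hS0
  have hle : S ≤ (LinearMap.range (Psi t)).map (wb e n).equivFun.symm.toLinearMap := by
    rw [hS, Submodule.span_le]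
    rintro _ ⟨g, rfl⟩
    have hgX : (g : Γ) ∈ (G.ρ X).dom := by
      rw [show G.ρ X = G.ρ (pw X 0) from rfl, (hO 0).1]
      exact Subgroup.mem_top _
    have h1 := act_cls G e hgX g.2 (prj X n) (fun i => act_prj hO n i g) t
    rw [hut] at h1
    change rep G (pw X n) g u ∈ _
    rw [rep_apply, h1, clsK_prj]
    exact ⟨_, tpow_mem _ t, rfl⟩
  rw [← hSeq]
  calc finrank W.K S ≤ finrank W.K
        ((LinearMap.range (Psi t)).map (wb e n).equivFun.symm.toLinearMap) :=
        Submodule.finrank_mono hle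
    _ ≤ finrank W.K (LinearMap.range (Psi t)) := Submodule.finrank_map_le _ _
    _ ≤ finrank W.K ((Fin (finrank W.K (W.H X)) × Fin (finrank W.K (W.H X)) →
        Fin (n + 1 + 1)) → W.K) := LinearMap.finrank_range_le _
    _ = (n + 2) ^ (finrank W.K (W.H X) ^ 2) := by
        rw [Module.finrank_fintype_fun_eq_card, Fintype.card_fun, Fintype.card_fin,
          Fintype.card_prod, Fintype.card_fin, pow_two]

end Pool.Agent.Q55.Moo
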