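import Pool.Agent.Q60.TD.Defs2

/-!
# Semisimplicity from the Tate conjecture: definitions
-/

open CategoryTheory AlgebraicGeometry

universe u v w

namespace Pool.Agent.Q55.Moo

open Pool.Agent.H914 Pool.Agent.H914.VarClass Pool.Agent.H914.VarClass.Obj
  Pool.Agent.H914.WeilCohomology Pool.Agent.Q55 Pool.Agent.Q60.TD Pool.Agent.Y133.Half

/-- For every stable subspace `V` of the space `U` (of degree `i`), a subgroup of finite index
acts on the square of the determinant of `V` by the power `i * dim V` of the character `χ`. -/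
def CyclotomicDet {Γ : Type w} [Group Γ] {K : Type*} [Field K] {A : Type*} [Ring A] [Algebra K A]
    (ρ : SubAction Γ K A) (χ : Γ →* Kˣ) (U : Submodule K A) (i : ℕ) : Prop :=
  ∀ V ≤ U, ∀ hV : ActStable ρ V, Virtually fun g => ∀ hg : g ∈ ρ.dom,
    LinearMap.det ((ρ.act g).toLinearMap.restrict (hV g hg)) ^ 2 =
      (χ g : K) ^ (i * Module.finrank K V)

variable {k : Type u} [Field k] {𝒱 : VarClass k} {ops : CycleOps 𝒱}
  {W : WeilCohomology.{u, v} ops} {Γ : Type w} [Group Γ]

/-- For every stable subspace `V` of `H^i(Y)`, a subgroup of finite index acts on the square of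
the determinant of `V` by the power `i * dim V` of the character. -/
def DetCyclotomic (G : GaloisAction W Γ) (Y : 𝒱.Obj) : Prop :=
  ∀ i, CyclotomicDet (G.ρ Y) G.χ (W.gr Y i) i

/-- The variety `X` is defined over the base field: the whole group acts on the cohomology of all
powers of `X`, and it commutes with the pull-backs along the projections of
`pw X (n + 1) = pw X n × X` to the two factors. -/
def OverBase (G : GaloisAction W Γ) (X : 𝒱.Obj) : Prop :=
  ∀ n, (G.ρ (pw X n)).dom = ⊤ ∧ ∀ g : Γ,
    (G.ρ ((pw X n).prod X)).Commutes (G.ρ (pw X n)) (W.map (fst (pw X n) X)) g ∧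
    (G.ρ ((pw X n).prod X)).Commutes (G.ρ X) (W.map (snd (pw X n) X)) g

end Pool.Agent.Q55.Moo
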