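import Pool.Agent.Q55.Moo.Ext
import Pool.Agent.Q55.Moo.Defs

/-!
# Stable subspaces with an algebraic determinant have stable complements
-/

open CategoryTheory AlgebraicGeometry

set_option linter.unusedSectionVars false

universe u v w

namespace Pool.Agent.Q55.Moo

open Module
open Pool.Agent.H914 Pool.Agent.H914.VarClass Pool.Agent.H914.VarClass.Obj
  Pool.Agent.H914.WeilCohomology Pool.Agent.H281R3.HT
open Pool.Agent.Y133.Half Pool.Agent.Q55 Pool.Agent.Q60.TD Pool.Agent.H447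
  Pool.Agent.W536.RR

variable {k : Type u} [Field k] {𝒱 : VarClass k} {ops : CycleOps 𝒱}
  {W : WeilCohomology.{u, 0} ops} {X Y Z : 𝒱.Obj} {Γ : Type w} [Group Γ]
  {G : GaloisAction W Γ} {r : ℕ}

/-- Homological and numerical equivalence agree on retracts. -/
lemma homEqNum_retract {s : Y ⟶ Z} {p : Z ⟶ Y} (h : s ≫ p = 𝟙 Y) (hZ : HomEqNum W Z) :
    HomEqNum W Y := by
  rw [homEqNum_iff] at hZ ⊢
  rw [eq_bot_iff]
  intro c hc
  have h1 := Sys.Num.map p hc
  rw [hZ, Submodule.mem_bot] at h1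
  have h2 : W.map s (W.map p c) = c := by rw [← W.map_comp, h, W.map_id]
  rw [Submodule.mem_bot, ← h2, h1, map_zero]

/-- The Tate conjecture passes to retracts. -/
lemma tate_retract {s : Y ⟶ Z} {p : Z ⟶ Y} (h : s ≫ p = 𝟙 Y) (hZ : TateConj G Z) :
    TateConj G Y := by
  intro j c hc
  have h1 : IsTate G Z j (W.map p c) := (tatePred G).map p hc
  have h2 := hZ j _ h1
  have h3 : W.map s (W.map p c) = c := by rw [← W.map_comp, h, W.map_id]
  rw [← h3]
  exact spanCycles_of_algSpan (algSpan_map s (Pool.Agent.Y129.span_le_algSpan j h2))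
    (W.map_mem s (W.map_mem p hc.1))

/-- A nonzero combination of classes of cycles has a nonzero intersection number with a cycle if
homological and numerical equivalence agree. -/
lemma exists_cycle (hD : HomEqNum W Z) {c : W.H Z} (hc : c ∈ algSpan W Z) (h0 : c ≠ 0) :
    ∃ j z, Z.IsCyc j z ∧ W.tr Z (c * W.cl Z z) ≠ 0 := by
  by_contra hcon
  push Not at hcon
  apply h0
  have h1 : c ∈ (algSys W).Num Z := by
    refine ⟨hc, fun d hd => ?_⟩
    have hd' : d ∈ algSpan W Z := hd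
    induction hd' using Submodule.span_induction with
    | mem x hx =>
      obtain ⟨j, hx⟩ := Set.mem_iUnion.1 hx
      obtain ⟨z, hz, rfl⟩ := hx
      exact hcon j z hz
    | zero => rw [mul_zero, map_zero]
    | add x y hx hy h1 h2 => rw [mul_add, map_add, h1 hx, h2 hy, add_zero]
    | smul t x hx h1 => rw [mul_smul_comm, map_smul, h1 hx, smul_zero]
  rw [(homEqNum_iff Z).1 hD, Submodule.mem_bot] at h1
  exact h1

/-- **The main step.** A stable subspace of dimension `r` of `H^i(Y)` whose determinant has the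
cyclotomic square has a stable complement if the Tate conjecture holds for `Y^(2 r)` and
homological and numerical equivalence agree on it. -/
theorem exists_compl {i : ℕ} {V : Submodule W.K (W.H Y)} (hVi : V ≤ W.gr Y i)
    (hV : ActStable (G.ρ Y) V)
    (hdet : Virtually fun g => ∀ hg : g ∈ (G.ρ Y).dom,
      LinearMap.det (((G.ρ Y).act g).toLinearMap.restrict (hV g hg)) ^ 2 =
        (G.χ g : W.K) ^ (i * finrank W.K V))
    {m : ℕ} (hm : m + 1 = finrank W.K V + finrank W.K V) (hT : TateConj G (pw Y m))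
    (hD : HomEqNum W (pw Y m)) :
    ∃ V' ≤ W.gr Y i, ActStable (G.ρ Y) V' ∧ V ⊓ V' = ⊥ ∧ V ⊔ V' = W.gr Y i := by
  classical
  set r := finrank W.K V with hr
  let w : Basis (Fin r) W.K V := finBasis W.K V
  have hw : ∀ j, (w j : W.H Y) ∈ W.gr Y i := fun j => hVi (w j).2
  set c₁ := Am' W (fa Y hm) (fun j => (w j : W.H Y)) with hc₁
  set c₂ := Am' W (fb Y hm) (fun j => (w j : W.H Y)) with hc₂
  have hc0 : c₁ * c₂ ≠ 0 := nz hm w
  obtain ⟨Δ₁, hΔ₁, hdet⟩ := hdet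
  -- the subgroup which commutes with the projections
  choose D₂ hD₂ h₂ using fun j => G.map_act (prj Y m j)
  have hfin₂ : (⨅ j, D₂ j).FiniteIndex := Subgroup.finiteIndex_iInf hD₂
  have hcom : ∀ g ∈ ⨅ j, D₂ j, ∀ j, (G.ρ (pw Y m)).Commutes (G.ρ Y) (W.map (prj Y m j)) g :=
    fun g hg j => h₂ j g ((Subgroup.mem_iInf.1 hg) j)
  have hfY := (G.isGalois Y).finiteIndex
  have hfZ := (G.isGalois (pw Y m)).finiteIndex
  set Δ := Δ₁ ⊓ (⨅ j, D₂ j) ⊓ (G.ρ Y).dom ⊓ (G.ρ (pw Y m)).dom with hΔ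
  have hΔf : Δ.FiniteIndex := inferInstance
  -- the determinant
  have key₁ : ∀ g (hg : g ∈ Δ), (G.ρ (pw Y m)).act g c₁ =
      LinearMap.det (((G.ρ Y).act g).toLinearMap.restrict (hV g hg.1.2)) • c₁ := by
    intro g hg
    rw [hc₁, act_Am' (f := fa Y hm) hg.2 hg.1.2 (fun j => hcom g hg.1.1.2 _)]
    exact alt_det (Am' W (fa Y hm)) w (g := ((G.ρ Y).act g).toLinearMap) (hV g hg.1.2)
  have key₂ : ∀ g (hg : g ∈ Δ), (G.ρ (pw Y m)).act g c₂ =
      LinearMap.det (((G.ρ Y).act g).toLinearMap.restrict (hV g hg.1.2)) • c₂ := by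
    intro g hg
    rw [hc₂, act_Am' (f := fb Y hm) hg.2 hg.1.2 (fun j => hcom g hg.1.1.2 _)]
    exact alt_det (Am' W (fb Y hm)) w (g := ((G.ρ Y).act g).toLinearMap) (hV g hg.1.2)
  -- the product is a Tate class
  have hgr : c₁ * c₂ ∈ W.gr (pw Y m) (2 * (r * i)) := by
    have h1 := W.mul_mem (Am'_gr (fa Y hm) hw) (Am'_gr (fb Y hm) hw)
    rwa [← two_mul] at h1
  have htate : IsTate G (pw Y m) (r * i) (c₁ * c₂) := by
    refine ⟨hgr, Δ, hΔf, fun g hg _ => ?_⟩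
    rw [map_mul, key₁ g hg, key₂ g hg, smul_mul_smul_comm, ← pow_two, hdet g hg.1.1.1 hg.1.2,
      mul_comm i r]
  have halg : c₁ * c₂ ∈ algSpan W (pw Y m) :=
    Pool.Agent.Y129.span_le_algSpan _ (hT _ _ htate)
  obtain ⟨j, z, hz, htr⟩ := exists_cycle hD halg hc0
  obtain ⟨Δ₃, hΔ₃, h₃⟩ := G.cl_act (pw Y m) j z hz
  -- the alternating form
  let l : W.H (pw Y m) →ₗ[W.K] W.K := W.tr (pw Y m) ∘ₗ LinearMap.mulRight W.K (c₂ * W.cl _ z)
  have hl : ∀ a, l a = W.tr (pw Y m) (a * (c₂ * W.cl _ z)) := fun a => rfl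
  let lam : W.H Y [⋀^Fin r]→ₗ[W.K] W.K := l.compAlternatingMap (Am' W (fa Y hm))
  have hlam : ∀ x, lam x = W.tr (pw Y m) (Am' W (fa Y hm) x * (c₂ * W.cl _ z)) := fun x => rfl
  have hlw : (lam fun j => (w j : W.H Y)) ≠ 0 := by
    rw [hlam, ← hc₁, ← mul_assoc]
    exact htr
  set Δ' := Δ ⊓ Δ₃ with hΔ'
  have hΔ'f : Δ'.FiniteIndex := inferInstance
  have hsemi : ∀ g ∈ Δ', ∃ μ : W.K, ∀ x : Fin r → W.H Y,
      lam (fun j => (G.ρ Y).act g (x j)) = μ * lam x := by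
    intro g hg
    have hgΔ : g ∈ Δ := hg.1
    set δ := LinearMap.det (((G.ρ Y).act g).toLinearMap.restrict (hV g hgΔ.1.2)) with hδ
    have hδ0 : δ ≠ 0 := by
      intro h0
      have h1 := hdet g hgΔ.1.1.1 hgΔ.1.2
      rw [← hδ, h0, zero_pow two_ne_zero] at h1
      exact pow_ne_zero _ (Units.ne_zero _) h1.symm
    have hχ0 : (G.χ g : W.K) ≠ 0 := Units.ne_zero _
    refine ⟨δ⁻¹ * ((G.χ g : W.K) ^ j)⁻¹ * (G.χ g : W.K) ^ (pw Y m).dim, fun x => ?_⟩
    have e1 : (G.ρ (pw Y m)).act g (Am' W (fa Y hm) x) =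
        Am' W (fa Y hm) fun j => (G.ρ Y).act g (x j) :=
      act_Am' (f := fa Y hm) hgΔ.2 hgΔ.1.2 (fun j => hcom g hgΔ.1.1.2 _) x
    have e2 := h₃ g hg.2 hgΔ.2
    have e3 : (G.ρ (pw Y m)).act g (Am' W (fa Y hm) x * (c₂ * W.cl _ z)) =
        (δ * (G.χ g : W.K) ^ j) •
          ((Am' W (fa Y hm) fun j => (G.ρ Y).act g (x j)) * (c₂ * W.cl _ z)) := by
      rw [map_mul, map_mul, e1, e2, key₂ g hgΔ, smul_mul_smul_comm, mul_smul_comm]
    have e4 := (G.isGalois (pw Y m)).tr_act g hgΔ.2 (Am' W (fa Y hm) x * (c₂ * W.cl _ z))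
    rw [e3, map_smul, smul_eq_mul] at e4
    rw [hlam, hlam]
    field_simp
    rw [← e4]
    ring
  -- the complement
  have hst : ∀ g ∈ Δ', ∀ x ∈ cpl lam V (W.gr Y i), (G.ρ Y).act g x ∈ cpl lam V (W.gr Y i) := by
    intro g hg x hx
    obtain ⟨μ, hμ⟩ := hsemi g hg
    exact cpl_stable (g := ((G.ρ Y).act g).toLinearMap) ((G.ρ Y).act g).injective
      (hV g hg.1.1.2) ((G.isGalois Y).gr_mem g hg.1.1.2 i) hμ hx
  have hD' : Δ' ≤ (G.ρ Y).dom := fun g hg => hg.1.1.2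
  have hfin : (Δ'.subgroupOf (G.ρ Y).dom).FiniteIndex := inferInstance
  obtain ⟨C', h1, h2, h3, h4⟩ := maschke_one (ρ := rep G Y) (Δ'.subgroupOf (G.ρ Y).dom)
    (gr_stab G Y i) hVi ((stable_iff G).1 hV) (C := cpl lam V (W.gr Y i))
    (by
      rw [stab_op]
      rintro ⟨g, hgD⟩ hg x hx
      exact hst g (Subgroup.mem_subgroupOf.1 hg) x hx)
    (inf_cpl w hlw) (sup_cpl hVi w hlw)
  exact ⟨C', h1, (stable_iff G).2 h2, h3, h4⟩

end Pool.Agent.Q55.Moo
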