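import Pool.Agent.Q55.Moo.TB

/-!
# Duality, and semisimplicity of the cohomology in a given degree
-/

open CategoryTheory AlgebraicGeometry

set_option linter.unusedSectionVars false

universe u v w

namespace Pool.Agent.Q55.Moo

open Module
open Pool.Agent.H914 Pool.Agent.H914.VarClass Pool.Agent.H914.VarClass.Obj
  Pool.Agent.H914.WeilCohomology Pool.Agent.H281R3.HT
open Pool.Agent.Y133.Half Pool.Agent.Q55 Pool.Agent.Q60.TD Pool.Agent.H447
  Pool.Agent.W536.RR

variable {k : Type u} [Field k] {𝒱 : VarClass k} {ops : CycleOps 𝒱}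
  {W : WeilCohomology.{u, 0} ops} {X Y Z : 𝒱.Obj} {Γ : Type w} [Group Γ]
  {G : GaloisAction W Γ}

/-- The classes of degree `i'` which are orthogonal to `V`. -/
def perp (W : WeilCohomology.{u, 0} ops) {Y : 𝒱.Obj} (V : Submodule W.K (W.H Y)) (i' : ℕ) :
    Submodule W.K (W.H Y) where
  carrier := {y | y ∈ W.gr Y i' ∧ ∀ x ∈ V, W.tr Y (x * y) = 0}
  add_mem' := fun {a b} ha hb => ⟨Submodule.add_mem _ ha.1 hb.1, fun x hx => by
    rw [mul_add, map_add, ha.2 x hx, hb.2 x hx, add_zero]⟩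
  zero_mem' := ⟨Submodule.zero_mem _, fun x _ => by rw [mul_zero, map_zero]⟩
  smul_mem' := fun r a ha => ⟨Submodule.smul_mem _ _ ha.1, fun x hx => by
    rw [mul_smul_comm, map_smul, ha.2 x hx, smul_zero]⟩

lemma mem_perp {V : Submodule W.K (W.H Y)} {i' : ℕ} {y : W.H Y} : y ∈ perp W V i' ↔
    y ∈ W.gr Y i' ∧ ∀ x ∈ V, W.tr Y (x * y) = 0 := Iff.rfl

lemma perp_le {V : Submodule W.K (W.H Y)} {i' : ℕ} : perp W V i' ≤ W.gr Y i' := fun _ h => h.1

/-- A class which is orthogonal to all classes of the complementary degree is zero. -/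
lemma eq_zero_of_orth {i i' : ℕ} (h : i + i' = 2 * Y.dim) {x : W.H Y} (hx : x ∈ W.gr Y i)
    (h0 : ∀ y ∈ W.gr Y i', W.tr Y (x * y) = 0) : x = 0 := by
  apply W.nondeg
  intro b
  refine gr_induction (W.isInternal Y) (p := fun b => W.tr Y (x * b) = 0) ?_ ?_ b
  · intro j b hb
    by_cases hj : j = i'
    · subst hj
      exact h0 b hb
    · exact (W.isPoincareAlgebra Y).tr_eq_zero (W.mul_mem hx hb) (by omega)
  · intro a b ha hb
    rw [mul_add, map_add, ha, hb, add_zero]

lemma tr_comm_zero {i i' : ℕ} {x y : W.H Y} (hx : x ∈ W.gr Y i) (hy : y ∈ W.gr Y i')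
    (h : W.tr Y (x * y) = 0) : W.tr Y (y * x) = 0 := by
  rw [W.comm hy hx, map_smul, h, smul_zero]

/-- The dimension of the orthogonal space. -/
lemma finrank_perp {i i' : ℕ} (h : i + i' = 2 * Y.dim) {V : Submodule W.K (W.H Y)}
    (hV : V ≤ W.gr Y i) :
    finrank W.K (perp W V i') + finrank W.K V = finrank W.K (W.gr Y i') := by
  let B : V →ₗ[W.K] (W.gr Y i') →ₗ[W.K] W.K :=
    ((LinearMap.mul W.K (W.H Y)).compr₂ (W.tr Y)).compl₁₂ V.subtype (W.gr Y i').subtype
  have hB : ∀ (x : V) (y : W.gr Y i'), B x y = W.tr Y ((x : W.H Y) * y) := fun _ _ => rfl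
  have hinj : Function.Injective B := by
    rw [injective_iff_map_eq_zero]
    intro x hx
    apply Subtype.ext
    refine eq_zero_of_orth h (hV x.2) fun y hy => ?_
    have h1 := LinearMap.congr_fun hx ⟨y, hy⟩
    rw [hB] at h1
    exact h1
  have hsurj : Function.Surjective B.flip := LinearMap.flip_surjective_iff₁.2 hinj
  have h1 := LinearMap.finrank_range_add_finrank_ker B.flip
  rw [LinearMap.range_eq_top.2 hsurj, finrank_top, Subspace.dual_finrank_eq] at h1
  have h2 : finrank W.K (LinearMap.ker B.flip) = finrank W.K (perp W V i') := by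
    have h3 : (LinearMap.ker B.flip).map (W.gr Y i').subtype = perp W V i' := by
      ext y
      constructor
      · rintro ⟨y, hy, rfl⟩
        refine ⟨y.2, fun x hx => ?_⟩
        have h4 : B.flip y = 0 := hy
        exact LinearMap.congr_fun h4 ⟨x, hx⟩
      · rintro ⟨hy, hy'⟩
        refine ⟨⟨y, hy⟩, ?_, rfl⟩
        apply LinearMap.ext
        rintro ⟨x, hx⟩
        exact hy' x hx
    rw [← h3]
    exact (LinearEquiv.finrank_eq (Submodule.equivMapOfInjective _
      (Submodule.injective_subtype _) _))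
  rw [← h2, ← h1]
  ring

lemma finrank_gr_eq {i i' : ℕ} (h : i + i' = 2 * Y.dim) :
    finrank W.K (W.gr Y i) = finrank W.K (W.gr Y i') := by
  have h1 := finrank_perp (W := W) h (le_refl (W.gr Y i))
  have h2 := finrank_perp (W := W) (show i' + i = 2 * Y.dim by omega) (le_refl (W.gr Y i'))
  omega

/-- The orthogonal space of a stable subspace is stable. -/
lemma perp_stable {V : Submodule W.K (W.H Y)} (hV : ActStable (G.ρ Y) V) (i' : ℕ) :
    ActStable (G.ρ Y) (perp W V i') := by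
  intro g hg y hy
  refine ⟨(G.isGalois Y).gr_mem g hg i' y hy.1, fun x hx => ?_⟩
  have hg' : g⁻¹ ∈ (G.ρ Y).dom := inv_mem hg
  have h1 : (G.ρ Y).act g ((G.ρ Y).act g⁻¹ x) = x := by
    have h2 := (G.ρ Y).act_mul g hg g⁻¹ hg'
    rw [mul_inv_cancel, act_one] at h2
    have h3 := congrArg (fun F => F x) h2
    exact h3.symm
  rw [← h1, ← map_mul, (G.isGalois Y).tr_act g hg, hy.2 _ (hV _ hg' x hx), mul_zero]

/-- The main step with duality. -/
theorem exists_compl' {i b : ℕ} (hb : finrank W.K (W.gr Y i) ≤ b)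
    (hdet : DetCyclotomic G Y)
    (hT : ∀ m, 1 ≤ m → m + 1 ≤ b → TateConj G (pw Y m))
    (hD : ∀ m, 1 ≤ m → m + 1 ≤ b → HomEqNum W (pw Y m)) :
    SemisimpleAt G Y i := by
  intro V hVi hV
  by_cases h0 : V = ⊥
  · refine ⟨W.gr Y i, le_rfl, fun g hg c hc => (G.isGalois Y).gr_mem g hg i c hc, ?_, ?_⟩
    · rw [h0, bot_inf_eq]
    · rw [h0, bot_sup_eq]
  have hr : 0 < finrank W.K V := by
    rw [Nat.pos_iff_ne_zero, Ne, Submodule.finrank_eq_zero]
    exact h0
  by_cases h2 : 2 * finrank W.K V ≤ finrank W.K (W.gr Y i)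
  · obtain ⟨m, hm⟩ : ∃ m, m + 1 = finrank W.K V + finrank W.K V :=
      ⟨finrank W.K V + finrank W.K V - 1, by omega⟩
    exact exists_compl hVi hV (hdet i V hVi hV) hm (hT m (by omega) (by omega))
      (hD m (by omega) (by omega))
  push Not at h2
  by_cases hi : 2 * Y.dim < i
  · exfalso
    rw [W.gr_eq_bot Y i hi] at hVi
    exact h0 (le_bot_iff.1 hVi)
  obtain ⟨i', hii⟩ : ∃ i', i + i' = 2 * Y.dim := ⟨2 * Y.dim - i, by omega⟩
  have hfr := finrank_perp hii hVi
  have hfe := finrank_gr_eq (W := W) hii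
  set V' := perp W V i' with hV'
  have hV's : ActStable (G.ρ Y) V' := perp_stable hV i'
  by_cases h0' : V' = ⊥
  · rw [h0', finrank_bot] at hfr
    have h3 : V = W.gr Y i := Submodule.eq_of_le_of_finrank_le hVi (by omega)
    refine ⟨⊥, bot_le, ?_, inf_bot_eq _, by rw [sup_bot_eq, h3]⟩
    intro g _ c hc
    rw [(Submodule.mem_bot _).1 hc, map_zero]
    exact Submodule.zero_mem _
  have hr' : 0 < finrank W.K V' := by
    rw [Nat.pos_iff_ne_zero, Ne, Submodule.finrank_eq_zero]
    exact h0'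
  obtain ⟨m, hm⟩ : ∃ m, m + 1 = finrank W.K V' + finrank W.K V' :=
    ⟨finrank W.K V' + finrank W.K V' - 1, by omega⟩
  obtain ⟨C', hC', hCs', h3, h4⟩ := exists_compl perp_le hV's (hdet i' V' perp_le hV's) hm
    (hT m (by omega) (by omega)) (hD m (by omega) (by omega))
  have hdim : finrank W.K V' + finrank W.K C' = finrank W.K (W.gr Y i') := by
    have h5 := Submodule.finrank_sup_add_finrank_inf_eq V' C'
    rw [h3, h4, finrank_bot, add_zero] at h5
    exact h5.symm
  have hfr' := finrank_perp (show i' + i = 2 * Y.dim by omega) hC'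
  have hinf : V ⊓ perp W C' i = ⊥ := by
    rw [eq_bot_iff]
    rintro x ⟨hx, hx'⟩
    rw [Submodule.mem_bot]
    refine eq_zero_of_orth hii (hVi hx) fun y hy => ?_
    rw [← h4] at hy
    obtain ⟨a, ha, c, hc, rfl⟩ := Submodule.mem_sup.1 hy
    rw [mul_add, map_add, ha.2 x hx, tr_comm_zero (hC' hc) (hVi hx) (hx'.2 c hc), add_zero]
  refine ⟨perp W C' i, perp_le, perp_stable hCs' i, hinf, ?_⟩
  apply Submodule.eq_of_le_of_finrank_le (sup_le hVi perp_le)
  have h5 := Submodule.finrank_sup_add_finrank_inf_eq V (perp W C' i)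
  rw [hinf, finrank_bot, add_zero] at h5
  omega

end Pool.Agent.Q55.Moo
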