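import Pool.Agent.Q60.TD.GMain
import Pool.Agent.Q55.Moo.Lin

/-!
# External alternating products of cohomology classes
-/

open CategoryTheory AlgebraicGeometry

set_option linter.unusedSectionVars false

universe u v w

namespace Pool.Agent.Q55.Moo

open Module
open Pool.Agent.H914 Pool.Agent.H914.VarClass Pool.Agent.H914.VarClass.Obj
  Pool.Agent.H914.WeilCohomology
open Pool.Agent.Y133.Half Pool.Agent.Q55 Pool.Agent.Q60.TD

variable {k : Type u} [Field k] {𝒱 : VarClass k} {ops : CycleOps 𝒱}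
  {W : WeilCohomology.{u, 0} ops} {X Y Z : 𝒱.Obj} {Γ : Type w} [Group Γ]
  {G : GaloisAction W Γ} {r : ℕ}

/-- The product of the pull-backs of `r` classes, as a multilinear map. -/
noncomputable def Em (W : WeilCohomology.{u, 0} ops) {Y Z : 𝒱.Obj} {r : ℕ} (f : Fin r → (Z ⟶ Y)) :
    MultilinearMap W.K (fun _ : Fin r => W.H Y) (W.H Z) :=
  (MultilinearMap.mkPiAlgebraFin W.K r (W.H Z)).compLinearMap fun j => (W.map (f j)).toLinearMap

lemma Em_apply (f : Fin r → (Z ⟶ Y)) (x : Fin r → W.H Y) :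
    Em W f x = (List.ofFn fun j => W.map (f j) (x j)).prod := by
  rw [Em, MultilinearMap.compLinearMap_apply, MultilinearMap.mkPiAlgebraFin_apply]
  rfl

/-- The alternating product. -/
noncomputable def Am' (W : WeilCohomology.{u, 0} ops) {Y Z : 𝒱.Obj} {r : ℕ} (f : Fin r → (Z ⟶ Y)) :
    W.H Y [⋀^Fin r]→ₗ[W.K] W.H Z :=
  MultilinearMap.alternatization (Em W f)

lemma Am'_apply (f : Fin r → (Z ⟶ Y)) (x : Fin r → W.H Y) :
    Am' W f x = ∑ σ : Equiv.Perm (Fin r), Equiv.Perm.sign σ • Em W f (fun j => x (σ j)) := by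
  rw [Am', MultilinearMap.alternatization_apply]
  rfl

lemma list_prod_gr {i : ℕ} (l : List (W.H Z)) (hl : ∀ x ∈ l, x ∈ W.gr Z i) :
    l.prod ∈ W.gr Z (l.length * i) := by
  induction l with
  | nil =>
    rw [List.prod_nil, List.length_nil, zero_mul]
    exact W.one_mem Z
  | cons x l ih =>
    rw [List.prod_cons, List.length_cons, add_mul, one_mul, add_comm]
    exact W.mul_mem (hl x (List.mem_cons_self ..)) (ih fun y hy => hl y (List.mem_cons_of_mem _ hy))

lemma Em_gr {i : ℕ} (f : Fin r → (Z ⟶ Y)) {x : Fin r → W.H Y} (hx : ∀ j, x j ∈ W.gr Y i) :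
    Em W f x ∈ W.gr Z (r * i) := by
  rw [Em_apply]
  have h := list_prod_gr (W := W) (i := i) (List.ofFn fun j => W.map (f j) (x j)) (by
    intro y hy
    rw [List.mem_ofFn] at hy
    obtain ⟨j, rfl⟩ := hy
    exact W.map_mem _ (hx j))
  rwa [List.length_ofFn] at h

lemma Am'_gr {i : ℕ} (f : Fin r → (Z ⟶ Y)) {x : Fin r → W.H Y} (hx : ∀ j, x j ∈ W.gr Y i) :
    Am' W f x ∈ W.gr Z (r * i) := by
  rw [Am'_apply]
  refine Submodule.sum_mem _ fun σ _ => ?_
  rw [Units.smul_def]
  exact zsmul_mem (Em_gr f fun j => hx _) _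

/-- The action on the alternating products. -/
lemma act_Em {g : Γ} (hZ : g ∈ (G.ρ Z).dom) (hY : g ∈ (G.ρ Y).dom) {f : Fin r → (Z ⟶ Y)}
    (hf : ∀ j, (G.ρ Z).Commutes (G.ρ Y) (W.map (f j)) g) (x : Fin r → W.H Y) :
    (G.ρ Z).act g (Em W f x) = Em W f fun j => (G.ρ Y).act g (x j) := by
  rw [Em_apply, Em_apply, map_list_prod, List.map_ofFn]
  congr 2
  funext j
  exact (hf j hZ hY (x j)).symm

lemma act_Am' {g : Γ} (hZ : g ∈ (G.ρ Z).dom) (hY : g ∈ (G.ρ Y).dom) {f : Fin r → (Z ⟶ Y)}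
    (hf : ∀ j, (G.ρ Z).Commutes (G.ρ Y) (W.map (f j)) g) (x : Fin r → W.H Y) :
    (G.ρ Z).act g (Am' W f x) = Am' W f fun j => (G.ρ Y).act g (x j) := by
  rw [Am'_apply, Am'_apply, map_sum]
  refine Finset.sum_congr rfl fun σ _ => ?_
  rw [Units.smul_def, Units.smul_def, map_zsmul, act_Em hZ hY hf]

/-- A basis which extends a basis of a subspace. -/
lemma exists_ext {V : Submodule W.K (W.H Y)} (w : Basis (Fin r) W.K V) :
    ∃ (κ : Type) (_ : Fintype κ) (_ : DecidableEq κ) (e : Basis κ W.K (W.H Y)) (m : Fin r → κ),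
      Function.Injective m ∧ ∀ j, e (m j) = w j := by
  classical
  have hv : LinearIndependent W.K fun j => (w j : W.H Y) :=
    w.linearIndependent.map' V.subtype V.ker_subtype
  have hs : LinearIndepOn W.K id (Set.range fun j => (w j : W.H Y)) := hv.linearIndepOn_id
  let e := Basis.extend hs
  have hfin : Finite ↥(hs.extend (Set.subset_univ _)) :=
    Module.Finite.finite_basis e
  have hmem : ∀ j, (w j : W.H Y) ∈ hs.extend (Set.subset_univ _) := fun j =>
    hs.subset_extend _ ⟨j, rfl⟩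
  refine ⟨_, Fintype.ofFinite _, Classical.decEq _, e, fun j => ⟨w j, hmem j⟩, ?_, ?_⟩
  · intro a b hab
    have h2 : (w a : W.H Y) = w b :=
      congrArg (fun z : ↥(hs.extend (Set.subset_univ _)) => (z : W.H Y)) hab
    exact hv.injective h2
  · intro j
    exact Basis.extend_apply_self hs _

section Nz

variable {m : ℕ} (hm : m + 1 = r + r)

/-- The first `r` projections. -/
noncomputable def fa (Y : 𝒱.Obj) (hm : m + 1 = r + r) (j : Fin r) : pw Y m ⟶ Y :=
  prj Y m (Fin.cast hm.symm (Fin.castAdd r j))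

/-- The last `r` projections. -/
noncomputable def fb (Y : 𝒱.Obj) (hm : m + 1 = r + r) (j : Fin r) : pw Y m ⟶ Y :=
  prj Y m (Fin.cast hm.symm (Fin.natAdd r j))

/-- The word. -/
def wrd {κ : Type} (hm : m + 1 = r + r) (a b : Fin r → κ) : Fin (m + 1) → κ :=
  Fin.append a b ∘ Fin.cast hm

lemma wrd_l {κ : Type} (a b : Fin r → κ) (j : Fin r) :
    wrd hm a b (Fin.cast hm.symm (Fin.castAdd r j)) = a j := by
  change Fin.append a b (Fin.cast hm (Fin.cast hm.symm (Fin.castAdd r j))) = a j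
  rw [Fin.cast_cast, Fin.cast_eq_self]
  exact Fin.append_left a b j

lemma wrd_r {κ : Type} (a b : Fin r → κ) (j : Fin r) :
    wrd hm a b (Fin.cast hm.symm (Fin.natAdd r j)) = b j := by
  change Fin.append a b (Fin.cast hm (Fin.cast hm.symm (Fin.natAdd r j))) = b j
  rw [Fin.cast_cast, Fin.cast_eq_self]
  exact Fin.append_right a b j

lemma wrd_inj {κ : Type} {a b a' b' : Fin r → κ} (h : wrd hm a b = wrd hm a' b') :
    a = a' ∧ b = b' := by
  constructor
  · funext j
    have := congrFun h (Fin.cast hm.symm (Fin.castAdd r j))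
    rwa [wrd_l, wrd_l] at this
  · funext j
    have := congrFun h (Fin.cast hm.symm (Fin.natAdd r j))
    rwa [wrd_r, wrd_r] at this

lemma Em_mul_Em {κ : Type} [Fintype κ] [DecidableEq κ] (e : Basis κ W.K (W.H Y))
    (a b : Fin r → κ) : Em W (fa Y hm) (fun j => e (a j)) * Em W (fb Y hm) (fun j => e (b j)) =
      wb e m (wrd hm a b) := by
  rw [wb_eq, Em_apply, Em_apply, ← List.prod_append]
  congr 1
  rw [List.ofFn_congr hm, List.ofFn_add]
  congr 2
  · funext j
    change _ = W.map (prj Y m (Fin.cast hm.symm (Fin.castAdd r j)))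
      (e (wrd hm a b (Fin.cast hm.symm (Fin.castAdd r j))))
    rw [wrd_l]
    rfl
  · funext j
    rw [wrd_r]
    rfl

/-- The product of the two alternating products of a basis of a subspace is not zero. -/
lemma nz {V : Submodule W.K (W.H Y)} (w : Basis (Fin r) W.K V) :
    Am' W (fa Y hm) (fun j => (w j : W.H Y)) * Am' W (fb Y hm) (fun j => (w j : W.H Y)) ≠ 0 := by
  classical
  obtain ⟨κ, _, _, e, q, hq, he⟩ := exists_ext w
  intro h0
  have h1 := congrArg (wb e m).repr h0
  have h2 := congrArg (fun F => F (wrd hm q q)) h1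
  rw [map_zero] at h2
  simp only [Am'_apply, ← he] at h2
  rw [Finset.sum_mul_sum, map_sum, Finsupp.finsetSum_apply] at h2
  have h3 : ∀ σ τ : Equiv.Perm (Fin r),
      ((wb e m).repr ((Equiv.Perm.sign σ • Em W (fa Y hm) fun j => e (q (σ j))) *
        (Equiv.Perm.sign τ • Em W (fb Y hm) fun j => e (q (τ j))))) (wrd hm q q) =
      if σ = 1 ∧ τ = 1 then 1 else 0 := by
    intro σ τ
    rw [Units.smul_def, Units.smul_def, smul_mul_assoc, mul_smul_comm,
      Em_mul_Em hm e (fun j => q (σ j)) fun j => q (τ j), map_zsmul, map_zsmul, Basis.repr_self,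
      Finsupp.smul_apply, Finsupp.smul_apply]
    by_cases h : σ = 1 ∧ τ = 1
    · obtain ⟨rfl, rfl⟩ := h
      rw [if_pos ⟨rfl, rfl⟩]
      have : wrd hm (fun j => q ((1 : Equiv.Perm (Fin r)) j)) (fun j => q ((1 : Equiv.Perm (Fin r)) j)) =
          wrd hm q q := rfl
      rw [this, Finsupp.single_eq_same]
      simp
    · rw [if_neg h, Finsupp.single_eq_of_ne, smul_zero, smul_zero]
      intro h4
      apply h
      obtain ⟨h5, h6⟩ := wrd_inj hm h4
      constructor
      · ext j
        exact congrArg Fin.val (hq (congrFun h5 j)).symm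
      · ext j
        exact congrArg Fin.val (hq (congrFun h6 j)).symm
  simp only [map_sum, Finsupp.finsetSum_apply, h3] at h2
  have h4 : ∑ σ : Equiv.Perm (Fin r), ∑ τ : Equiv.Perm (Fin r),
      (if σ = 1 ∧ τ = 1 then (1 : W.K) else 0) = 1 := by
    rw [Finset.sum_eq_single 1, Finset.sum_eq_single 1]
    · simp
    · intro τ _ hτ
      rw [if_neg fun h => hτ h.2]
    · intro h
      exact absurd (Finset.mem_univ _) h
    · intro σ _ hσ
      exact Finset.sum_eq_zero fun τ _ => if_neg fun h => hσ h.1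
    · intro h
      exact absurd (Finset.mem_univ _) h
  rw [h4] at h2
  exact one_ne_zero h2

end Nz

end Pool.Agent.Q55.Moo
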