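import Pool.Agent.Q55.Moo.Core
import Pool.Agent.W552.TateB

/-!
# The Tate conjecture for `X × X` implies the Lefschetz standard conjecture for `X`
-/

open CategoryTheory AlgebraicGeometry

set_option linter.unusedSectionVars false

universe u v w

namespace Pool.Agent.Q55.Moo

open Module
open Pool.Agent.H914 Pool.Agent.H914.VarClass Pool.Agent.H914.VarClass.Obj
  Pool.Agent.H914.WeilCohomology Pool.Agent.H281R3.HT
open Pool.Agent.Y133.Half Pool.Agent.Q55 Pool.Agent.Q60.TD Pool.Agent.H447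
  Pool.Agent.W536.RR Pool.Agent.W552

variable {k : Type u} [Field k] {𝒱 : VarClass k} {ops : CycleOps 𝒱}
  {W : WeilCohomology.{u, 0} ops} {X Y Z : 𝒱.Obj} {Γ : Type w} [Group Γ]
  {G : GaloisAction W Γ}

/-- The class of an operator which commutes with the action up to a twist. -/
lemma corr_act (G : GaloisAction W Γ) (X : 𝒱.Obj) : ∃ Δ : Subgroup Γ, Δ.FiniteIndex ∧
    ∀ g ∈ Δ, g ∈ (G.ρ X).dom ∧ g ∈ (G.ρ (X.prod X)).dom ∧ ∀ (c : W.H (X.prod X)) (a : W.H X),
      W.corr ((G.ρ (X.prod X)).act g c) ((G.ρ X).act g a) =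
        (G.χ g : W.K) ^ X.dim • (G.ρ X).act g (W.corr c a) := by
  obtain ⟨Δ₁, hΔ₁, h₁⟩ := G.map_act (fst X X)
  obtain ⟨Δ₂, hΔ₂, h₂⟩ := push_act G (snd X X)
  have hfX := (G.isGalois X).finiteIndex
  have hfZ := (G.isGalois (X.prod X)).finiteIndex
  refine ⟨Δ₁ ⊓ Δ₂ ⊓ (G.ρ X).dom ⊓ (G.ρ (X.prod X)).dom, inferInstance, ?_⟩
  rintro g ⟨⟨⟨hg1, hg2⟩, hgX⟩, hgZ⟩
  refine ⟨hgX, hgZ, fun c a => ?_⟩
  rw [corr_apply, corr_apply, h₁ g hg1 hgZ hgX, ← map_mul]
  have h3 := h₂ g hg2 hgZ hgX (c * W.map (fst X X) a)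
  have hχ : (G.χ g : W.K) ^ X.dim ≠ 0 := pow_ne_zero _ (Units.ne_zero _)
  have h4 : (G.χ g : W.K) ^ (X.prod X).dim = (G.χ g : W.K) ^ X.dim * (G.χ g : W.K) ^ X.dim := by
    rw [dim_prod, pow_add]
  rw [h4, mul_smul] at h3
  exact (smul_right_injective _ hχ h3).symm

/-- **The Tate conjecture for `X × X` implies the Lefschetz standard conjecture for `X`.** -/
theorem lefschetzB_of_tateConj {D : X.Cycles} (hD : X.IsCyc 1 D) (hHL : HardLefschetz W X D)
    (hT : TateConj G (X.prod X)) : LefschetzB W X D := by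
  by_cases h1 : (1 : W.H X) = 0
  · have h0 : ∀ a : W.H X, a = 0 := fun a => by rw [← one_mul a, h1, zero_mul]
    exact ⟨0, SmVar.IsCyc.zero _ _, fun i hi a _ _ => ⟨h0 _, fun j _ => (h0 _).trans (h0 _).symm⟩⟩
  set n := X.dim with hn
  set L : Module.End W.K (W.H X) := LinearMap.mulLeft W.K (W.cl X D) with hLdef
  have hL : IsHom (W.gr X) 2 L := by
    simpa using rop_opAlg.hom (rop_mulLeft (W := W) hD)
  obtain ⟨Φ, hΦh, hΦ⟩ := exists_isLam (W.isInternal X) hL W_hbd hHL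
  by_cases hn1 : n = 0
  · have hΦ0 : Φ = 0 := by
      apply gr_ext (W.isInternal X)
      intro i a ha
      have h2 := hΦh i a (by rw [grZ_natCast]; exact ha)
      by_cases hi : i = 0
      · subst hi
        rw [grZ_of_neg (by norm_num)] at h2
        exact (Submodule.mem_bot _).1 h2
      · rw [W.gr_eq_bot X i (by omega)] at ha
        rw [(Submodule.mem_bot _).1 ha, map_zero, LinearMap.zero_apply]
    refine ⟨0, SmVar.IsCyc.zero _ _, ?_⟩
    rw [InducesLambda, map_zero, corr_zero, ← hΦ0]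
    exact hΦ
  obtain ⟨Δ₁, hΔ₁, h₁⟩ := G.cl_act X 1 D hD
  obtain ⟨Δ₂, hΔ₂, h₂⟩ := corr_act G X
  have hcomm : ∀ g ∈ Δ₁ ⊓ Δ₂, ∀ y, Φ ((G.ρ X).act g y) = (G.χ g : W.K) • (G.ρ X).act g (Φ y) := by
    intro g hg y
    have hgX := (h₂ g hg.2).1
    have hQ0 : (G.χ g : W.K) ≠ 0 := Units.ne_zero _
    have hm' := h₁ g hg.1 hgX
    rw [pow_one] at hm'
    have hLφ : ∀ (i : ℕ) (a : W.H X), (G.ρ X).act g ((L ^ i) a) =
        (G.χ g : W.K) ^ i • (L ^ i) ((G.ρ X).act g a) := by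
      intro i a
      induction i with
      | zero => simp
      | succ i ih =>
        rw [pow_succ', Module.End.mul_apply, hLdef, LinearMap.mulLeft_apply, ← hLdef, map_mul, hm',
          ih, smul_mul_smul_comm, ← pow_succ']
        rfl
    refine lef_induction' (W.isInternal X) hL W_hbd hHL
      (p := fun y => Φ ((G.ρ X).act g y) = (G.χ g : W.K) • (G.ρ X).act g (Φ y)) ?_ ?_ y
    · intro a c ha hc
      rw [map_add, map_add, ha, hc, map_add, map_add, smul_add]
    · intro i hi u hu hpu j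
      by_cases hj : n - i < j
      · rw [L_pow_gt hpu hj, map_zero, map_zero, map_zero, smul_zero]
      · have hpu' : (L ^ (n - i + 1)) ((G.ρ X).act g u) = 0 := by
          have h2 := hLφ (n - i + 1) u
          rw [hpu, map_zero] at h2
          rcases smul_eq_zero.1 h2.symm with h3 | h3
          · exact absurd h3 (pow_ne_zero _ hQ0)
          · exact h3
        have hu' : (G.ρ X).act g u ∈ W.gr X i := (G.isGalois X).gr_mem g hgX i u hu
        rcases Nat.eq_zero_or_pos j with rfl | h0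
        · rw [pow_zero, Module.End.one_apply, (hΦ i hi _ hu' hpu').1,
            (hΦ i hi u hu hpu).1, map_zero, smul_zero]
        · obtain ⟨j, rfl⟩ : ∃ j', j = j' + 1 := ⟨j - 1, by omega⟩
          rw [hLφ, map_smul, (hΦ i hi _ hu' hpu').2 j (by omega),
            (hΦ i hi u hu hpu).2 j (by omega), hLφ, smul_smul, pow_succ']
  -- its class
  set γ : W.H (X.prod X) := (corrEquiv W X).symm Φ with hγ
  have hcγ : W.corr γ = Φ := (corrEquiv W X).apply_symm_apply Φ
  have hγm : γ ∈ W.gr (X.prod X) (2 * (n - 1)) := by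
    apply gr_of_corr
    intro i a ha
    rw [hcγ]
    have h2 := hΦh i a (by rw [grZ_natCast]; exact ha)
    have e : (i : ℤ) + -2 = ((2 * (n - 1) : ℕ) : ℤ) + i - 2 * X.dim := by omega
    rwa [e] at h2
  have hγt : IsTate G (X.prod X) (n - 1) γ := by
    refine ⟨hγm, Δ₁ ⊓ Δ₂, inferInstance, fun g hg _ => ?_⟩
    rw [← sub_eq_zero]
    apply corr_inj
    apply LinearMap.ext
    intro y
    obtain ⟨a, rfl⟩ := ((G.ρ X).act g).surjective y
    have h2 := (h₂ g hg.2).2.2 γ a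
    rw [hcγ] at h2
    have h3 : W.corr ((G.ρ (X.prod X)).act g γ - (G.χ g : W.K) ^ (n - 1) • γ) =
        W.corr ((G.ρ (X.prod X)).act g γ) - (G.χ g : W.K) ^ (n - 1) • W.corr γ := by
      have e1 := map_sub (corrEquiv W X) ((G.ρ (X.prod X)).act g γ) ((G.χ g : W.K) ^ (n - 1) • γ)
      rw [map_smul (corrEquiv W X)] at e1
      exact e1
    rw [h3, LinearMap.sub_apply, h2, LinearMap.smul_apply, hcγ, hcomm g hg, smul_smul, ← pow_succ,
      show n - 1 + 1 = n by omega, LinearMap.zero_apply, ← hn, sub_self]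
  have hγs := hT (n - 1) γ hγt
  apply ((lefschetzB_tfae hD hHL).out 1 0).1
  refine ⟨γ, ?_, by rw [hcγ]; exact hΦ⟩
  rwa [show ((n - 1 : ℕ) : ℤ) = (X.dim : ℤ) - 1 by omega] at hγs

end Pool.Agent.Q55.Moo
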